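import Pool.Agent.DWC.NCDef

/-!
# Contraction of a rational curve: the statement

Let `C ≅ ℙ¹` be a curve in a smooth variety over `k`, and let `X` be the formal neighbourhood
of `C`, the completion of the variety along `C`.  Let `U₀` and `U₁` be the open formal subschemes
of `X` whose underlying spaces are `C ∖ {∞}` and `C ∖ {0}`.  They are affine; `B₀`, `B₁` and `B` are
the rings of functions on `U₀`, on `U₁` and on `U₀ ∩ U₁`.  The restrictions `B₀ → B` and `B₁ → B`
are injective, because the variety is smooth.  The functions `x ∈ B₀` and `w ∈ B₁` are lifts of the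
coordinates `T` and `T⁻¹` of `C`; they are units of `B`, because `B` is complete.
-/

set_option autoImplicit false

open LaurentPolynomial

universe u

namespace Pool.Agent.DWC

variable {k : Type u} [Field k]

/-- The ideal of `C` on `U₀ ∩ U₁`. -/
noncomputable def Nbhd.I (X : Nbhd k) : Ideal X.B := RingHom.ker X.res.toRingHom

theorem Nbhd.mem_I {X : Nbhd k} {b : X.B} : b ∈ X.I ↔ X.res b = 0 := by
  unfold Nbhd.I
  rw [RingHom.mem_ker]
  rfl

/-- The ideal of `C` on `U₀`. -/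
noncomputable abbrev Nbhd.I₀ (X : Nbhd k) : Ideal X.B₀ := X.I.comap (algebraMap X.B₀ X.B)

/-- The ideal of `C` on `U₁`. -/
noncomputable abbrev Nbhd.I₁ (X : Nbhd k) : Ideal X.B₁ := X.I.comap (algebraMap X.B₁ X.B)

/-- The `N`-th power of the ideal of `C` on `U₀`. -/
noncomputable def Nbhd.idealPow₀ (X : Nbhd k) (N : ℕ) : Ideal X.B₀ := X.I₀ ^ N

/-- The `N`-th power of the ideal of `C` on `U₁`. -/
noncomputable def Nbhd.idealPow₁ (X : Nbhd k) (N : ℕ) : Ideal X.B₁ := X.I₁ ^ N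

/-- The `N`-th power of the ideal of `C` on `U₀`, as a subset of `B`. -/
def Nbhd.pow₀ (X : Nbhd k) (N : ℕ) : Set X.B := {b | ∃ c : X.B₀, c ∈ X.idealPow₀ N ∧ (c : X.B) = b}

/-- The `N`-th power of the ideal of `C` on `U₁`, as a subset of `B`. -/
def Nbhd.pow₁ (X : Nbhd k) (N : ℕ) : Set X.B := {b | ∃ c : X.B₁, c ∈ X.idealPow₁ N ∧ (c : X.B) = b}

theorem Nbhd.mem_pow₀ {X : Nbhd k} {N : ℕ} {b : X.B} :
    b ∈ X.pow₀ N ↔ ∃ c ∈ X.I₀ ^ N, (c : X.B) = b := Iff.rfl

theorem Nbhd.mem_pow₁ {X : Nbhd k} {N : ℕ} {b : X.B} :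
    b ∈ X.pow₁ N ↔ ∃ c ∈ X.I₁ ^ N, (c : X.B) = b := Iff.rfl

/-- `B₀` is complete for the topology defined by the ideal of `C`. -/
abbrev Nbhd.Complete₀ (X : Nbhd k) : Prop := IsAdicComplete X.I₀ X.B₀

/-- `B₁` is complete for the topology defined by the ideal of `C`. -/
abbrev Nbhd.Complete₁ (X : Nbhd k) : Prop := IsAdicComplete X.I₁ X.B₁

/-- Modulo the powers of the ideal of `C`, functions on `U₀ ∩ U₁` are functions on `U₀` divided by
powers of `x`. -/
abbrev Nbhd.Loc₀ (X : Nbhd k) : Prop :=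
  ∀ (N : ℕ) (b : X.B), ∃ ν : ℕ, ∃ c ∈ X.I ^ N, (X.x : X.B) ^ ν * b + c ∈ X.B₀

/-- Modulo the powers of the ideal of `C`, functions on `U₀ ∩ U₁` are functions on `U₁` divided by
powers of `w`. -/
abbrev Nbhd.Loc₁ (X : Nbhd k) : Prop :=
  ∀ (N : ℕ) (b : X.B), ∃ ν : ℕ, ∃ c ∈ X.I ^ N, (X.w : X.B) ^ ν * b + c ∈ X.B₁

/-- Modulo the powers of the ideal of `C`, functions on `U₀` that vanish on `U₀ ∩ U₁` are killed by
powers of `x`. -/
abbrev Nbhd.Exact₀ (X : Nbhd k) : Prop :=
  ∀ (N : ℕ), ∀ b ∈ X.B₀, b ∈ X.I ^ N → ∃ ν : ℕ, (X.x : X.B) ^ ν * b ∈ X.pow₀ N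

/-- Modulo the powers of the ideal of `C`, functions on `U₁` that vanish on `U₀ ∩ U₁` are killed by
powers of `w`. -/
abbrev Nbhd.Exact₁ (X : Nbhd k) : Prop :=
  ∀ (N : ℕ), ∀ b ∈ X.B₁, b ∈ X.I ^ N → ∃ ν : ℕ, (X.w : X.B) ^ ν * b ∈ X.pow₁ N

/-- `X` is the formal neighbourhood of `C`: the rings of functions on `U₀`, `U₁` and `U₀ ∩ U₁` are
noetherian and complete for the topology defined by the ideal of `C`, and modulo every power of
this ideal `U₀ ∩ U₁` is the open subset `x ≠ 0` of `U₀` and the open subset `w ≠ 0` of `U₁`. -/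
structure Nbhd.Formal (X : Nbhd k) : Prop where
  noeth₀ : IsNoetherianRing X.B₀
  noeth₁ : IsNoetherianRing X.B₁
  noeth : IsNoetherianRing X.B
  complete₀ : X.Complete₀
  complete₁ : X.Complete₁
  complete : IsAdicComplete X.I X.B
  loc₀ : X.Loc₀
  loc₁ : X.Loc₁
  exact₀ : X.Exact₀
  exact₁ : X.Exact₁

theorem Nbhd.Formal.separated {X : Nbhd k} (hX : X.Formal) (b : X.B)
    (h : ∀ m : ℕ, b ∈ X.I ^ m) : b = 0 := by
  have h1 := hX.complete
  refine IsHausdorff.haus (I := X.I) h1.toIsHausdorff b fun n => ?_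
  rw [SModEq.zero, smul_eq_mul, Ideal.mul_top]
  exact h n

/-- The ring `R = H⁰(X, 𝒪)` of global functions. -/
def Nbhd.R (X : Nbhd k) : Subalgebra k X.B := X.B₀ ⊓ X.B₁

/-- The global functions that vanish on `C`. -/
noncomputable abbrev Nbhd.m (X : Nbhd k) : Ideal X.R := X.I.comap (algebraMap X.R X.B)

/-- `H⁰(X, 𝒪(d))`, where `𝒪(d)` is the line bundle on `X` with sections `B₀` over `U₀` and
`w ^ (-d) B₁` over `U₁`; its restriction to `C` has degree `d`. -/
def Nbhd.sections (X : Nbhd k) (d : ℤ) : Set X.B :=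
  {b | b ∈ X.B₀ ∧ ((X.w ^ d : X.Bˣ) : X.B) * b ∈ X.B₁}

/-- The subsheaf generated by `s`, over `U₀`. -/
def Nbhd.span₀ (X : Nbhd k) (s : Finset X.B) : Set X.B := Submodule.span X.B₀ (s : Set X.B)

/-- The subsheaf generated by `s`, over `U₁`. -/
def Nbhd.span₁ (X : Nbhd k) (s : Finset X.B) : Set X.B := Submodule.span X.B₁ (s : Set X.B)

/-- The subsheaf of `𝒪(d)` generated by the global sections in `s` contains the product of `𝒪(d)`
with the `N`-th power of the ideal of `C`.  For `N = 0` this says that `s` generates `𝒪(d)`, and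
if it holds for some `N` then `s` generates `𝒪(d)` outside `C`. -/
def Nbhd.Generates (X : Nbhd k) (s : Finset X.B) (d : ℤ) (N : ℕ) : Prop :=
  X.pow₀ N ⊆ X.span₀ s ∧ ∀ b ∈ X.pow₁ N, ((X.w ^ (-d) : X.Bˣ) : X.B) * b ∈ X.span₁ s

/-- `R` is noetherian. -/
abbrev Nbhd.NoethR (X : Nbhd k) : Prop := IsNoetherianRing X.R

/-- `R` is complete for the ideal of functions vanishing on `C`. -/
abbrev Nbhd.CompleteR (X : Nbhd k) : Prop := IsAdicComplete X.m X.R

/-- `H¹(X, 𝒪) = 0`. -/
abbrev Nbhd.Acyclic (X : Nbhd k) : Prop := ∀ b : X.B, ∃ b₀ ∈ X.B₀, ∃ b₁ ∈ X.B₁, b = b₀ + b₁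

/-- `C` contracts to a point: the morphism `f : X → Spf R`, `R = H⁰(X, 𝒪)`, is projective, with
`R f_* 𝒪_X = 𝒪`, its closed fibre is `C` as a set, and it is an isomorphism outside `C`. -/
structure Contracts (X : Nbhd k) : Prop where
  /-- `R` is a local ring. -/
  isLocal : IsLocalRing X.R
  /-- `R` is noetherian. -/
  noetherian : X.NoethR
  /-- `R` is complete for the ideal of functions vanishing on `C`, which is its maximal ideal. -/
  complete : X.CompleteR
  /-- The residue field of `R` is `k`: global functions are constant on `C`. -/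
  residue : ∀ r ∈ X.R, ∃ a : k, X.res r = C a
  /-- `H¹(X, 𝒪) = 0`. -/
  h1 : X.Acyclic
  /-- The closed fibre of `f` is `C` as a set: finitely many global functions that vanish on `C`
  generate an ideal which contains a power of the ideal of `C`. -/
  fibre : ∃ (s : Finset X.B) (N : ℕ), (∀ h ∈ s, h ∈ X.R ∧ X.res h = 0) ∧ X.Generates s 0 N
  /-- `𝒪(1)` is generated by finitely many global sections. -/
  ample : ∃ s : Finset X.B, (s : Set X.B) ⊆ X.sections 1 ∧ X.Generates s 1 0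
  /-- `𝒪(-1)` is generated outside `C` by finitely many global sections.  So a curve outside `C`
  in a fibre of `f` would have degree `≥ 0` for `𝒪(-1)`, but `𝒪(1)` is ample on the fibres. -/
  iso : ∃ (s : Finset X.B) (N : ℕ), (s : Set X.B) ⊆ X.sections (-1) ∧ X.Generates s (-1) N

end Pool.Agent.DWC
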