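import Pool.Agent.DWX.Main
import Pool.Agent.H23ISO.Bridge
import Pool.Agent.H61DW.RingFG
import Pool.Agent.H73DW.Fin
import Pool.Agent.H73DW.Ring1

/-!
# A rational curve with finite dimensional deformation algebra contracts
-/

set_option autoImplicit false

open LaurentPolynomial

universe u

namespace Pool.Agent.DWC

open Pool.Agent.H23ISO

variable {k : Type u} [Field k] {X : Nbhd k}

theorem Nbhd.Formal.isChart₀ (hX : X.Formal) : DWC.IsChart X X.B₀ X.x where
  mem := X.x_mem
  loc := hX.loc₀
  sat N b hb := by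
    obtain ⟨ν, c, hc, h⟩ := hX.exact₀ N b b.2 hb
    refine ⟨ν, ?_⟩
    have h2 : c = (⟨X.x, X.x_mem⟩ : X.B₀) ^ ν * b := Subtype.ext h
    rw [← h2]
    exact hc

theorem Nbhd.Formal.isChart₁ (hX : X.Formal) : DWC.IsChart X X.B₁ X.w where
  mem := X.w_mem
  loc := hX.loc₁
  sat N b hb := by
    obtain ⟨ν, c, hc, h⟩ := hX.exact₁ N b b.2 hb
    refine ⟨ν, ?_⟩
    have h2 : c = (⟨X.w, X.w_mem⟩ : X.B₁) ^ ν * b := Subtype.ext h
    rw [← h2]
    exact hc

/-- The ideal of global functions that vanish on `C` is finitely generated. -/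
theorem m_fg (hX : X.Formal) (h : FinVersal X) : X.m.FG := by
  have hF := hX.isFormal
  have hL : LoewyBounded' X := loewyBounded_neg_one_of_finVersal h
  obtain ⟨J, hc, hJo, hJ⟩ := exists_J hF hL
  have hn := hX.noeth
  have hcpl := hX.complete
  have hB := (acyclic_top_iff hF).1 (acyclic_globGen hF hc hJo hJ (OX hF) ⊤ ⟨0, le_top⟩
      (nonNeg_top hF)).1
  obtain ⟨s, -, h0, h1⟩ := (globGen_iff hF J).1 (acyclic_globGen hF hc hJo hJ (OX hF) J hJo hJ).2
  obtain ⟨N, hN⟩ := (isOpen_iff hF J).1 hJo
  exact fg_global (IsAdicComplete.le_jacobson_bot X.I) hX.isChart₀ hX.isChart₁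
    ((chain_iff hF J).1 hc) hN h0 h1 hB

/-- **The conjecture of Donovan and Wemyss**: a curve `C ≅ ℙ¹` whose noncommutative deformation
algebra has finite dimension contracts to a point. -/
theorem contracts (hX : X.Formal) (h : FinVersal X) : Contracts X := by
  obtain ⟨h1, h2, h3, h4⟩ := contracts_aux hX h
  obtain ⟨hN, hC⟩ := H61DW.ring_of_fg ⟨hX.complete₀, hX.complete₁, hX.separated⟩ residue_R
    (m_fg hX h)
  exact
    { isLocal := isLocalRing_R hX
      noetherian := hN
      complete := hC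
      residue := residue_R
      h1 := h1
      fibre := h2
      ample := h3
      iso := h4 }

end Pool.Agent.DWC
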