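import Pool.Agent.DWX.P6Twist
import Pool.Agent.DWX.Contract
import Pool.Agent.H23ISO.Neg
import Pool.Agent.H23ISO.StepTwo

/-!
# A rational curve with finite dimensional deformation algebra contracts
-/

set_option autoImplicit false

open LaurentPolynomial

universe u

namespace Pool.Agent.DWC

open Pool.Agent.H23ISO Pool.Agent.H60ISO

variable {k : Type u} [Field k] {X : Nbhd k}

/-- The axioms of a formal neighbourhood. -/
theorem Nbhd.Formal.isFormal (hX : X.Formal) : IsFormal X :=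
  ⟨hX.noeth₀, hX.noeth₁, hX.complete₀, hX.complete₁, hX.separated, hX.loc₀, hX.loc₁⟩

/-- The maximal sheaf of ideals without maps to `𝒪_C(-1)`. -/
theorem exists_J (hX : IsFormal X) (hL : LoewyBounded' X) :
    ∃ J : Ideal X.B, H23ISO.Chain (OX hX) (IC X) J ∧ IsOpen' (OX hX) J ∧
      H23ISO.NonNeg (OX hX) J := by
  have hop : IsOpen' (OX hX) (IC X) := ⟨1, by
    rw [pow_one]
    refine Submodule.smul_le.2 fun a ha v _ => ?_
    exact (IC X).mul_mem_right v ha⟩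
  obtain ⟨J, h1, h2, h3⟩ := exists_noHom hL (OX hX) (IC X) hop fun G hG => noHom_ideal hX hL G hG
  exact ⟨J, h1, h2, nonneg_of_noHom (OX hX) J h2 h3⟩

/-- The part of `Contracts` about sheaves. -/
theorem contracts_aux (hX : X.Formal) (h : FinVersal X) :
    (∀ b : X.B, ∃ b₀ ∈ X.B₀, ∃ b₁ ∈ X.B₁, b = b₀ + b₁) ∧
    (∃ (s : Finset X.B) (N : ℕ), (∀ h ∈ s, h ∈ X.R ∧ X.res h = 0) ∧ X.Generates s 0 N) ∧
    (∃ s : Finset X.B, (s : Set X.B) ⊆ X.sections 1 ∧ X.Generates s 1 0) ∧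
    ∃ (s : Finset X.B) (N : ℕ), (s : Set X.B) ⊆ X.sections (-1) ∧ X.Generates s (-1) N := by
  have hF := hX.isFormal
  have hL : LoewyBounded' X := loewyBounded_neg_one_of_finVersal h
  obtain ⟨J, hc, hJo, hJ⟩ := exists_J hF hL
  refine ⟨fun b => ?_, ?_, ?_, ?_⟩
  · obtain ⟨a, ha, c, hc', h⟩ := (acyclic_globGen hF hc hJo hJ (OX hF) ⊤ ⟨0, le_top⟩
      (nonNeg_top hF)).1 b trivial
    exact ⟨a, (mem_V₀_OX hF a).1 ha.2, c, (mem_V₁_OX hF c).1 hc'.2, h⟩
  · obtain ⟨s, hs, h0, h1⟩ := (acyclic_globGen hF hc hJo hJ (OX hF) J hJo hJ).2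
    obtain ⟨N, hN⟩ := hJo
    have hle := hc.le
    have hmem : ∀ c ∈ IC X ^ N, c ∈ J := fun c hc => by
      have h := Submodule.smul_mem_smul hc (Submodule.mem_top (x := (1 : X.B)) (R := X.B))
      have h2 : c • (1 : X.B) = c := by rw [smul_eq_mul, mul_one]
      rw [h2] at h
      exact hN h
    refine ⟨s, N, fun g hg => ⟨⟨(mem_V₀_OX hF g).1 (hs g hg).1.2,
      (mem_V₁_OX hF g).1 (hs g hg).2.2⟩, mem_IC.1 (hle (hs g hg).1.1)⟩, ?_, ?_⟩
    · rintro _ ⟨b, hb, rfl⟩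
      refine h0 ⟨hmem _ ?_, (mem_V₀_OX hF _).2 b.2⟩
      have h3 := Ideal.mem_map_of_mem (algebraMap X.B₀ X.B) hb
      unfold Nbhd.idealPow₀ at h3
      rw [Ideal.map_pow] at h3
      exact Ideal.pow_right_mono Ideal.map_comap_le N h3
    · rintro _ ⟨b, hb, rfl⟩
      rw [neg_zero, zpow_zero, Units.val_one, one_mul]
      refine h1 ⟨hmem _ ?_, (mem_V₁_OX hF _).2 b.2⟩
      have h3 := Ideal.mem_map_of_mem (algebraMap X.B₁ X.B) hb
      unfold Nbhd.idealPow₁ at h3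
      rw [Ideal.map_pow] at h3
      exact Ideal.pow_right_mono Ideal.map_comap_le N h3
  · obtain ⟨s, hs, h0, h1⟩ := ample hF hc hJo hJ
    refine ⟨s, fun b hb => ⟨(hs b hb).1, ?_⟩, ?_, ?_⟩
    · rw [zpow_one]
      exact (hs b hb).2
    · rintro _ ⟨b, -, rfl⟩
      have h3 := Submodule.smul_mem _ b h0
      rwa [smul_def₀, smul_eq_mul, mul_one] at h3
    · rintro _ ⟨b, -, rfl⟩
      have h3 := Submodule.smul_mem _ b h1
      rw [smul_def₁, smul_eq_mul, mul_comm] at h3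
      rw [zpow_neg, zpow_one]
      exact h3
  · obtain ⟨s, hs, N, h0, h1⟩ := neg hF hL hc hJo hJ
    refine ⟨s, N, fun b hb => ⟨(hs b hb).1, ?_⟩, ?_, ?_⟩
    · obtain ⟨b', hb', h4⟩ := (hs b hb).2
      rw [h4, zpow_neg, zpow_one, Units.inv_mul_cancel_left]
      exact hb'
    · rintro _ ⟨b, hb, rfl⟩
      exact h0 b hb
    · rintro _ ⟨b, hb, rfl⟩
      rw [neg_neg, zpow_one]
      exact h1 b hb

end Pool.Agent.DWC
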