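import Pool.Agent.DWX.StatementBridge
import Pool.Agent.DWX.Final
import Pool.Agent.H37A.Final
import Pool.Agent.H15CV.To

/-!
# The Donovan–Wemyss conjecture

A curve `C ≅ ℙ¹` contracts to a point if and only if its noncommutative deformation algebra is
finite-dimensional.
-/

set_option autoImplicit false

universe u

namespace Pool.Agent.DWC

variable {k : Type u} [Field k] {X : Nbhd k}

/-- `C` contracts to a point if and only if the noncommutative deformation algebra of `C` is
finite-dimensional. -/
theorem Nbhd.contractsToPoint_iff_finDimDef (hX : X.IsFormal) :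
    X.ContractsToPoint ↔ X.FinDimDef := by
  have hX' : X.Formal := Nbhd.isFormal_iff.1 hX
  rw [Nbhd.contractsToPoint_iff, Nbhd.finDimDef_iff]
  exact ⟨finVersal_of_contractsTo hX',
    fun h => H37A.contractsTo_of_finVersal hX' h (contracts hX' h)⟩

end Pool.Agent.DWC
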