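import Pool.Agent.DWX.P6Loewy

/-! P6: the layers of an iterated extension of `𝒪_C` cut out by the powers of the augmentation
ideal of a versal deformation algebra. -/

set_option autoImplicit false

open LaurentPolynomial

universe u

namespace Pool.Agent.DWC

variable {k : Type u} [Field k] {X : Nbhd k}

/-- the subspace of the `y` all of whose coefficient vectors lie in `V` -/
def coefSub {m : ℕ} (V : Submodule k (Fin m → k)) : Submodule k (Fin m → k[T;T⁻¹]) where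
  carrier := {y | ∀ i : ℤ, (fun j => (y j).coeff i) ∈ V}
  zero_mem' := fun i => by
    have : (fun j : Fin m => ((0 : Fin m → k[T;T⁻¹]) j).coeff i) = 0 := rfl
    rw [this]; exact zero_mem _
  add_mem' := fun {x y} hx hy i => by
    have : (fun j : Fin m => ((x + y) j).coeff i) =
      (fun j => (x j).coeff i) + fun j => (y j).coeff i := rfl
    rw [this]; exact add_mem (hx i) (hy i)
  smul_mem' := fun c x hx i => by
    have : (fun j : Fin m => ((c • x) j).coeff i) = c • fun j => (x j).coeff i := rfl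
    rw [this]; exact Submodule.smul_mem _ _ (hx i)

lemma coefSub_mono {m : ℕ} {V V' : Submodule k (Fin m → k)} (h : V ≤ V') :
    coefSub V ≤ coefSub V' := fun _ hy i => h (hy i)

lemma coefSub_top {m : ℕ} (y : Fin m → k[T;T⁻¹]) : y ∈ coefSub (k := k) (m := m) ⊤ :=
  fun _ => Submodule.mem_top

lemma coefSub_bot {m : ℕ} {y : Fin m → k[T;T⁻¹]} (hy : y ∈ coefSub (k := k) (m := m) ⊥) :
    y = 0 := by
  funext j
  apply AddMonoidAlgebra.ext
  ext i
  exact congrFun ((Submodule.mem_bot k).1 (hy i)) j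

lemma tensor_mem_coefSub {m : ℕ} {V : Submodule k (Fin m → k)} {v : Fin m → k} (hv : v ∈ V)
    (g : k[T;T⁻¹]) : (fun j => v j • g) ∈ coefSub V := by
  intro i
  have : (fun j : Fin m => (v j • g).coeff i) = g.coeff i • v := by
    funext j
    change v j * g.coeff i = g.coeff i * v j
    rw [mul_comm]
  rw [this]
  exact Submodule.smul_mem _ _ hv

/-- `coefSub V` is spanned by the `v ⊗ g` -/
lemma coefSub_le_span {m : ℕ} (V : Submodule k (Fin m → k)) :
    coefSub V ≤ Submodule.span k {y | ∃ v ∈ V, ∃ g : k[T;T⁻¹], y = fun j => v j • g} := by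
  intro y hy
  let S : Finset ℤ := Finset.univ.biUnion fun j => (y j).coeff.support
  have h : y = ∑ i ∈ S, fun j => (y j).coeff i • (T i : k[T;T⁻¹]) := by
    funext j
    rw [Finset.sum_apply]
    apply AddMonoidAlgebra.ext
    ext a
    rw [AddMonoidAlgebra.coeff_sum, Finsupp.finsetSum_apply]
    have h1 : ∀ i ∈ S, ((y j).coeff i • (T i : k[T;T⁻¹])).coeff a =
        if i = a then (y j).coeff a else 0 := by
      intro i _
      change (y j).coeff i * (Finsupp.single i (1 : k)) a = _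
      rw [Finsupp.single_apply]
      split_ifs with h
      · rw [h, mul_one]
      · rw [mul_zero]
    rw [Finset.sum_congr rfl h1, Finset.sum_ite_eq']
    split_ifs with h2
    · rfl
    · by_contra h3
      exact h2 (Finset.mem_biUnion.2 ⟨j, Finset.mem_univ _, Finsupp.mem_support_iff.2 h3⟩)
  rw [h]
  exact sum_mem fun i _ => Submodule.subset_span ⟨_, hy i, T i, rfl⟩

/-- `V = V₀ ⊇ V₁ ⊇ ⋯`, `V_{s+1} = V_s f(𝔪)` -/
def Vf {Λ : Type u} [Ring Λ] [Algebra k Λ] (η : Λ →ₐ[k] k) {n : ℕ} (f : Λ →ₐ[k] Tri k n) :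
    ℕ → Submodule k (Fin (n + 1) → k)
  | 0 => ⊤
  | s + 1 => Submodule.span k {w | ∃ v ∈ Vf η f s, ∃ l ∈ aug η, w = Matrix.vecMul v (f l).1}

section Vf

variable {Λ : Type u} [Ring Λ] [Algebra k Λ] {η : Λ →ₐ[k] k} {n : ℕ} {f : Λ →ₐ[k] Tri k n}

lemma Vf_succ (s : ℕ) : Vf η f (s + 1) =
    Submodule.span k {w | ∃ v ∈ Vf η f s, ∃ l ∈ aug η, w = Matrix.vecMul v (f l).1} := rfl

lemma vecMul_mem_Vf {s : ℕ} {v : Fin (n + 1) → k} (hv : v ∈ Vf η f s) {l : Λ} (hl : η l = 0) :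
    Matrix.vecMul v (f l).1 ∈ Vf η f (s + 1) := by
  rw [Vf_succ]
  exact Submodule.subset_span ⟨v, hv, l, hl, rfl⟩

lemma Vf_le (s : ℕ) : Vf η f (s + 1) ≤ Vf η f s := by
  induction s with
  | zero => exact le_top
  | succ s ih =>
    rw [Vf_succ (s := s + 1), Vf_succ (s := s)]
    apply Submodule.span_mono
    rintro w ⟨v, hv, l, hl, rfl⟩
    exact ⟨v, ih hv, l, hl, rfl⟩

lemma Vf_le_span (s : ℕ) : Vf η f s ≤
    Submodule.span k {w | ∃ v : Fin (n + 1) → k, ∃ l ∈ aug η ^ s,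
      w = Matrix.vecMul v (f l).1} := by
  induction s with
  | zero =>
    intro v _
    apply Submodule.subset_span
    refine ⟨v, 1, ?_, ?_⟩
    · rw [pow_zero]; exact Submodule.one_le.1 le_rfl
    · rw [map_one]
      change v = Matrix.vecMul v 1
      rw [Matrix.vecMul_one]
  | succ s ih =>
    rw [Vf_succ]
    rw [Submodule.span_le]
    rintro w ⟨v, hv, l, hl, rfl⟩
    have h1 : ∀ v ∈ Submodule.span k {w | ∃ v : Fin (n + 1) → k, ∃ l ∈ aug η ^ s,
        w = Matrix.vecMul v (f l).1}, Matrix.vecMul v (f l).1 ∈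
        Submodule.span k {w | ∃ v : Fin (n + 1) → k, ∃ l ∈ aug η ^ (s + 1),
          w = Matrix.vecMul v (f l).1} := by
      intro v hv
      induction hv using Submodule.span_induction with
      | mem x hx =>
        obtain ⟨v', l', hl', rfl⟩ := hx
        apply Submodule.subset_span
        refine ⟨v', l' * l, ?_, ?_⟩
        · rw [pow_succ]
          exact Submodule.mul_mem_mul hl' hl
        · rw [map_mul]
          change _ = Matrix.vecMul v' ((f l').1 * (f l).1)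
          rw [Matrix.vecMul_vecMul]
      | zero => rw [Matrix.zero_vecMul]; exact zero_mem _
      | add x y _ _ hx hy => rw [Matrix.add_vecMul]; exact add_mem hx hy
      | smul c x _ hx => rw [Matrix.smul_vecMul]; exact Submodule.smul_mem _ _ hx
    exact h1 v (ih hv)

lemma Vf_eq_bot {N : ℕ} (hN : aug η ^ N = ⊥) : Vf η f N = ⊥ := by
  rw [eq_bot_iff]
  refine (Vf_le_span N).trans ?_
  rw [Submodule.span_le]
  rintro w ⟨v, l, hl, rfl⟩
  rw [hN, Submodule.mem_bot] at hl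
  rw [hl, map_zero]
  change Matrix.vecMul v 0 ∈ (⊥ : Submodule k _)
  rw [Matrix.vecMul_zero]
  exact zero_mem _

end Vf

/-- a linear map to `k^r` which restricts to a surjection of `V₂` with kernel `V₁` -/
lemma exists_tau {m : ℕ} (V₁ V₂ : Submodule k (Fin m → k)) :
    ∃ (r : ℕ) (τ : (Fin m → k) →ₗ[k] (Fin r → k)), (∀ w, ∃ v ∈ V₂, τ v = w) ∧
      ∀ v ∈ V₂, τ v = 0 ↔ v ∈ V₁ := by
  let Q := V₂ ⧸ (V₁.comap V₂.subtype)
  let e : Q ≃ₗ[k] (Fin (Module.finrank k Q) → k) := (Module.finBasis k Q).equivFun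
  obtain ⟨τ, hτ⟩ := LinearMap.exists_extend (e.toLinearMap ∘ₗ (V₁.comap V₂.subtype).mkQ)
  have h1 : ∀ v : V₂, τ v = e (Submodule.Quotient.mk v) := fun v => LinearMap.congr_fun hτ v
  refine ⟨_, τ, fun w => ?_, fun v hv => ?_⟩
  · obtain ⟨q, hq⟩ := e.surjective w
    obtain ⟨v, rfl⟩ := Submodule.Quotient.mk_surjective _ q
    exact ⟨v, v.2, by rw [h1, hq]⟩
  · rw [h1 ⟨v, hv⟩, LinearEquiv.map_eq_zero_iff, Submodule.Quotient.mk_eq_zero]
    rfl

section

variable {E : Sh X} {n : ℕ} {G : ℕ → Submodule X.B E.M}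
  {p : Fin (n + 1) → E.M →ₗ[k] k[T;T⁻¹]} {Λ : Type u} [Ring Λ] [Algebra k Λ] {η : Λ →ₐ[k] k}
  {U : NCDef X η} {f : Λ →ₐ[k] Tri k n}

namespace Ind

variable (I : Ind E n G p U f)

lemma th_zero_vec (v : Fin (n + 1) → k) (hv : v = 0) (u : U.F.M) : I.th v u = 0 := by
  rw [hv, I.th_zero]

lemma Phi_tensor (σ : k[T;T⁻¹] →ₗ[k] U.F.M) (v : Fin (n + 1) → k) (g : k[T;T⁻¹]) :
    I.Phi σ (fun j => v j • g) = I.th v (σ g) := by
  rw [Phi_apply, th_apply]
  refine Finset.sum_congr rfl fun j _ => ?_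
  rw [map_smul, Sh.smulK, map_smul, Pi.smul_apply]
  rfl

/-- the filtration of `E` -/
def Pf (s : ℕ) : Submodule X.B E.M :=
  Submodule.span X.B {x | ∃ v ∈ Vf η f s, ∃ u, x = I.th v u}

lemma th_mem_Pf {s : ℕ} {v : Fin (n + 1) → k} (hv : v ∈ Vf η f s) (u : U.F.M) :
    I.th v u ∈ I.Pf s := Submodule.subset_span ⟨v, hv, u, rfl⟩

lemma Pf_succ_le (s : ℕ) : I.Pf (s + 1) ≤ I.Pf s := by
  apply Submodule.span_mono
  rintro x ⟨v, hv, u, rfl⟩
  exact ⟨v, Vf_le s hv, u, rfl⟩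

lemma Pf_eq_bot {N : ℕ} (hN : aug η ^ N = ⊥) : I.Pf N = ⊥ := by
  rw [eq_bot_iff, Pf, Submodule.span_le]
  rintro x ⟨v, hv, u, rfl⟩
  rw [Vf_eq_bot hN, Submodule.mem_bot] at hv
  rw [hv, I.th_zero]
  exact zero_mem _

variable {σ : k[T;T⁻¹] →ₗ[k] U.F.M} (hσ : ∀ y, U.π (σ y) = y) {N : ℕ} (hN : aug η ^ N = ⊥)

lemma Phi_mem_Pf {s : ℕ} {y : Fin (n + 1) → k[T;T⁻¹]} (hy : y ∈ coefSub (Vf η f s)) :
    I.Phi σ y ∈ I.Pf s := by
  have h := coefSub_le_span _ hy
  clear hy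
  induction h using Submodule.span_induction with
  | mem y hy =>
    obtain ⟨v, hv, g, rfl⟩ := hy
    rw [Phi_tensor]
    exact I.th_mem_Pf hv _
  | zero => rw [map_zero]; exact zero_mem _
  | add x y _ _ hx hy => rw [map_add]; exact add_mem hx hy
  | smul c x _ hx =>
    rw [map_smul, Sh.smulK]
    exact Submodule.smul_mem _ _ hx

include hσ hN in
/-- for `v ∈ V_s`, `θ_v(u) = Φ(v ⊗ π(u) + y')` with `y'` in the part with coefficients in
`V_{s+1}` -/
lemma th_eq (d : ℕ) : ∀ s : ℕ, s + d = N → ∀ v ∈ Vf η f s, ∀ u : U.F.M,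
    ∃ y' ∈ coefSub (Vf η f (s + 1)), I.th v u = I.Phi σ ((fun j => v j • U.π u) + y') := by
  induction d with
  | zero =>
    intro s hs v hv u
    have : s = N := hs
    subst this
    rw [Vf_eq_bot hN, Submodule.mem_bot] at hv
    subst hv
    refine ⟨0, zero_mem _, ?_⟩
    rw [I.th_zero]
    have : (fun j : Fin (n + 1) => (0 : Fin (n + 1) → k) j • U.π u) + 0 = 0 := by
      funext j; simp
    rw [this, map_zero]
  | succ d ih =>
    intro s hs v hv u
    have h0 : U.π (u - σ (U.π u)) = 0 := by rw [map_sub, hσ, sub_self]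
    have h1 := (U.chart.ker _ (AddSubgroup.mem_top _)).1 h0
    have key : ∀ w ∈ AddSubgroup.closure {y : U.F.M | ∃ γ : Λ, η γ = 0 ∧
        ∃ m' ∈ (⊤ : AddSubgroup U.F.M), y = U.ρ γ m'},
        ∃ y' ∈ coefSub (Vf η f (s + 1)), I.th v w = I.Phi σ y' := by
      intro w hw
      induction hw using AddSubgroup.closure_induction with
      | mem w hw =>
        obtain ⟨l, hl, m, _, rfl⟩ := hw
        obtain ⟨y', hy', h'⟩ := ih (s + 1) (by omega) _ (vecMul_mem_Vf hv hl) m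
        refine ⟨_, add_mem (tensor_mem_coefSub (vecMul_mem_Vf hv hl) (U.π m))
          (coefSub_mono (Vf_le _) hy'), ?_⟩
        rw [th_ρ, h']
      | zero => exact ⟨0, zero_mem _, by rw [map_zero, map_zero]⟩
      | add x y _ _ hx hy =>
        obtain ⟨a, ha, ha'⟩ := hx
        obtain ⟨b, hb, hb'⟩ := hy
        exact ⟨a + b, add_mem ha hb, by rw [map_add, map_add, ha', hb']⟩
      | neg x _ hx =>
        obtain ⟨a, ha, ha'⟩ := hx
        exact ⟨-a, neg_mem ha, by rw [map_neg, map_neg, ha']⟩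
    obtain ⟨y', hy', h'⟩ := key _ h1
    refine ⟨y', hy', ?_⟩
    rw [map_add, Phi_tensor, ← h', ← map_add]
    congr 1
    abel

include hσ hN in
lemma mem_Pf {s : ℕ} (hs : s ≤ N) {x : E.M} :
    x ∈ I.Pf s ↔ ∃ y ∈ coefSub (Vf η f s), I.Phi σ y = x := by
  constructor
  · intro hx
    have gen : ∀ v ∈ Vf η f s, ∀ u, ∃ y ∈ coefSub (Vf η f s), I.Phi σ y = I.th v u := by
      intro v hv u
      obtain ⟨y', hy', h'⟩ := I.th_eq hσ hN (N - s) s (by omega) v hv u
      exact ⟨_, add_mem (tensor_mem_coefSub hv _) (coefSub_mono (Vf_le _) hy'), h'.symm⟩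
    have hb : ∀ y ∈ coefSub (Vf η f s), ∀ b : X.B, ∃ y' ∈ coefSub (Vf η f s),
        I.Phi σ y' = b • I.Phi σ y := by
      intro y hy b
      have h := coefSub_le_span _ hy
      clear hy
      induction h using Submodule.span_induction with
      | mem y hy =>
        obtain ⟨v, hv, g, rfl⟩ := hy
        rw [Phi_tensor, ← map_smul]
        exact gen v hv _
      | zero => exact ⟨0, zero_mem _, by rw [map_zero, smul_zero]⟩
      | add x y _ _ hx hy =>
        obtain ⟨a, ha, ha'⟩ := hx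
        obtain ⟨b, hb, hb'⟩ := hy
        exact ⟨a + b, add_mem ha hb, by rw [map_add, ha', hb', map_add, smul_add]⟩
      | smul c x _ hx =>
        obtain ⟨a, ha, ha'⟩ := hx
        exact ⟨c • a, Submodule.smul_mem _ _ ha, by
          rw [map_smul, ha', map_smul, smul_comm]⟩
    induction hx using Submodule.span_induction with
    | mem x hx =>
      obtain ⟨v, hv, u, rfl⟩ := hx
      exact gen v hv u
    | zero => exact ⟨0, zero_mem _, by rw [map_zero]⟩
    | add x y _ _ hx hy =>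
      obtain ⟨a, ha, ha'⟩ := hx
      obtain ⟨b, hb, hb'⟩ := hy
      exact ⟨a + b, add_mem ha hb, by rw [map_add, ha', hb']⟩
    | smul b x _ hx =>
      obtain ⟨a, ha, ha'⟩ := hx
      rw [← ha']
      exact hb a ha b
  · rintro ⟨y, hy, rfl⟩
    exact I.Phi_mem_Pf hy

/-- the map to the layer, before restriction: `Θ(Φ(y))_a = Σ_j τ(e_j)_a y_j` -/
noncomputable def Tau {r : ℕ} (τ : (Fin (n + 1) → k) →ₗ[k] (Fin r → k)) :
    (Fin (n + 1) → k[T;T⁻¹]) →ₗ[k] (Fin r → k[T;T⁻¹]) where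
  toFun y a := ∑ j, τ (Pi.single j 1) a • y j
  map_add' := by
    intro x y
    funext a
    rw [Pi.add_apply, ← Finset.sum_add_distrib]
    exact Finset.sum_congr rfl fun j _ => by rw [Pi.add_apply, smul_add]
  map_smul' := by
    intro c x
    funext a
    rw [RingHom.id_apply, Pi.smul_apply, Finset.smul_sum]
    exact Finset.sum_congr rfl fun j _ => by rw [Pi.smul_apply, smul_comm]

omit [Ring Λ] [Algebra k Λ] in
lemma tau_apply {r : ℕ} (τ : (Fin (n + 1) → k) →ₗ[k] (Fin r → k)) (v : Fin (n + 1) → k)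
    (a : Fin r) : τ v a = ∑ j, τ (Pi.single j 1) a * v j := by
  conv_lhs => rw [← Finset.univ_sum_single v]
  rw [map_sum, Finset.sum_apply]
  refine Finset.sum_congr rfl fun j _ => ?_
  have : (Pi.single j (v j) : Fin (n + 1) → k) = v j • Pi.single j 1 := by
    rw [← Pi.single_smul, smul_eq_mul, mul_one]
  rw [this, map_smul, Pi.smul_apply, smul_eq_mul, mul_comm]

omit [Ring Λ] [Algebra k Λ] in
lemma Tau_coeff {r : ℕ} (τ : (Fin (n + 1) → k) →ₗ[k] (Fin r → k))
    (y : Fin (n + 1) → k[T;T⁻¹]) (a : Fin r) (i : ℤ) :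
    (Tau τ y a).coeff i = τ (fun j => (y j).coeff i) a := by
  rw [tau_apply]
  change (∑ j, τ (Pi.single j 1) a • y j).coeff i = _
  rw [AddMonoidAlgebra.coeff_sum, Finsupp.finsetSum_apply]
  rfl

omit [Ring Λ] [Algebra k Λ] in
lemma Tau_tensor {r : ℕ} (τ : (Fin (n + 1) → k) →ₗ[k] (Fin r → k)) (v : Fin (n + 1) → k)
    (g : k[T;T⁻¹]) : Tau τ (fun j => v j • g) = fun a => τ v a • g := by
  funext a
  change ∑ j, τ (Pi.single j 1) a • (v j • g) = τ v a • g
  rw [tau_apply, Finset.sum_smul]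
  exact Finset.sum_congr rfl fun j _ => smul_smul (τ (Pi.single j 1) a) (v j) g

omit [Ring Λ] [Algebra k Λ] in
lemma Tau_eq_zero {r : ℕ} {τ : (Fin (n + 1) → k) →ₗ[k] (Fin r → k)}
    {V₁ V₂ : Submodule k (Fin (n + 1) → k)} (hτ : ∀ v ∈ V₂, τ v = 0 ↔ v ∈ V₁)
    {y : Fin (n + 1) → k[T;T⁻¹]} (hy : y ∈ coefSub V₂) : Tau τ y = 0 ↔ y ∈ coefSub V₁ := by
  constructor
  · intro h i
    apply (hτ _ (hy i)).1
    funext a
    rw [← Tau_coeff, h]
    rfl
  · intro h
    funext a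
    apply AddMonoidAlgebra.ext
    ext i
    rw [Tau_coeff, (hτ _ (hy i)).2 (h i)]
    rfl

include hσ hN in
/-- the layers of the filtration `Pf` are sums of copies of `𝒪_C` -/
lemma isLayer_Pf {s : ℕ} (hs : s < N) : IsLayer E 0 (I.Pf (s + 1)) (I.Pf s) := by
  obtain ⟨r, τ, hτs, hτk⟩ := exists_tau (Vf η f (s + 1)) (Vf η f s)
  let e := LinearEquiv.ofBijective (I.Phi σ) (I.Phi_bijective hσ)
  let Θ : E.M →ₗ[k] (Fin r → k[T;T⁻¹]) := Tau τ ∘ₗ e.symm.toLinearMap
  have hΘ : ∀ y, Θ (I.Phi σ y) = Tau τ y := by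
    intro y
    change Tau τ (e.symm (e y)) = _
    rw [e.symm_apply_apply]
  have hth : ∀ v ∈ Vf η f s, ∀ u, Θ (I.th v u) = fun a => τ v a • U.π u := by
    intro v hv u
    obtain ⟨y', hy', h'⟩ := I.th_eq hσ hN (N - s) s (by omega) v hv u
    rw [h', hΘ, map_add, Tau_tensor,
      (Tau_eq_zero hτk (coefSub_mono (Vf_le _) hy')).2 hy', add_zero]
  -- any section computes `Θ`
  have hΘ' : ∀ (σ' : k[T;T⁻¹] →ₗ[k] U.F.M), (∀ y, U.π (σ' y) = y) →
      ∀ y ∈ coefSub (Vf η f s), Θ (I.Phi σ' y) = Tau τ y := by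
    intro σ' hσ' y hy
    have h := coefSub_le_span _ hy
    clear hy
    induction h using Submodule.span_induction with
    | mem y hy =>
      obtain ⟨v, hv, g, rfl⟩ := hy
      rw [Phi_tensor, hth v hv, hσ', Tau_tensor]
    | zero => rw [map_zero, map_zero, map_zero]
    | add x y _ _ hx hy => rw [map_add, map_add, hx, hy, map_add]
    | smul c x _ hx => rw [map_smul, map_smul, hx, map_smul]
  have hb : ∀ x ∈ I.Pf s, ∀ (b : X.B) (a : Fin r), Θ (b • x) a = X.res b * Θ x a := by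
    intro x hx
    induction hx using Submodule.span_induction with
    | mem x hx =>
      obtain ⟨v, hv, u, rfl⟩ := hx
      intro b a
      rw [← map_smul, hth v hv, hth v hv, U.π_smul, mul_smul_comm]
    | zero =>
      intro b a
      rw [smul_zero, map_zero]
      exact (mul_zero _).symm
    | add x y _ _ hx hy =>
      intro b a
      rw [smul_add, map_add, map_add, Pi.add_apply, Pi.add_apply, hx, hy, mul_add]
    | smul c x _ hx =>
      intro b a
      rw [smul_smul, hx, hx, map_mul, mul_assoc]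
  choose w hw hw' using hτs
  have hlift : ∀ (L : Submodule k E.M) (f' : Fin r → k[T;T⁻¹]) (u : Fin r → U.F.M),
      (∀ a, U.π (u a) = f' a) → (∀ a v, I.th v (u a) ∈ L) →
      ∃ x ∈ I.Pf s, x ∈ L ∧ Θ x = f' := by
    intro L f' u hu huL
    refine ⟨∑ a, I.th (w (Pi.single a 1)) (u a),
      sum_mem fun a _ => I.th_mem_Pf (hw _) _, sum_mem fun a _ => huL _ _, ?_⟩
    rw [map_sum]
    funext b
    rw [Finset.sum_apply, Finset.sum_eq_single b]
    · rw [hth _ (hw _), hw', hu]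
      change (Pi.single b (1 : k) : Fin r → k) b • f' b = f' b
      rw [Pi.single_eq_same, one_smul]
    · intro a _ ha
      rw [hth _ (hw _), hw']
      change (Pi.single a (1 : k) : Fin r → k) b • U.π (u a) = 0
      rw [Pi.single_eq_of_ne ha.symm, zero_smul]
    · simp
  have hchart : ∀ (L : Submodule k E.M) (M' : Submodule k U.F.M) (W' : Submodule k k[T;T⁻¹])
      (_ : ∀ w, (∃ m ∈ M', U.π m = w) ↔ w ∈ W') (_ : ∀ v, ∀ u ∈ M', I.th v u ∈ L)
      (_ : ∀ (i : Fin (n + 1)) (g : E.M), g ∈ G (i + 1) → g ∈ L → p i g ∈ W')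
      (_ : ∀ u ∈ M', ∀ i, I.θ u i ∈ L) (f' : Fin r → k[T;T⁻¹]),
      (∃ x : I.Pf s, (x : E.M) ∈ L ∧ Θ x = f') ↔ ∀ a, f' a ∈ W' := by
    intro L M' W' hM' hth' hp hθ f'
    constructor
    · rintro ⟨⟨x, hx⟩, hxL, rfl⟩ a
      obtain ⟨σ', hσ', hσ''⟩ := U.exists_section M' W' hM'
      obtain ⟨y, hy, rfl⟩ := (I.mem_Pf hσ' hN hs.le).1 hx
      have h1 := I.mem_of_Phi_mem hσ' L W' hp (fun y hy i => hθ _ (hσ'' y hy) i) hxL
      change Θ (I.Phi σ' y) a ∈ W'
      rw [hΘ' σ' hσ' y hy]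
      change ∑ j, τ (Pi.single j 1) a • y j ∈ W'
      exact sum_mem fun j _ => Submodule.smul_mem _ _ (h1 j)
    · intro hf
      choose u hu hu' using fun a => (hM' _).2 (hf a)
      obtain ⟨x, hx, hxL, h⟩ := hlift L f' u hu' (fun a v => hth' v _ (hu a))
      exact ⟨⟨x, hx⟩, hxL, h⟩
  refine ⟨r, (Θ.toAddMonoidHom.comp (I.Pf s).toAddSubgroup.subtype : I.Pf s →+ _),
    fun b x a => hb x x.2 b a, fun f' => ?_, fun x => ?_, ?_, ?_⟩
  · obtain ⟨x, hx, _, h⟩ := hlift ⊤ f' (fun a => σ (f' a)) (fun a => hσ _)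
      (fun _ _ => Submodule.mem_top)
    exact ⟨⟨x, hx⟩, h⟩
  · obtain ⟨x, hx⟩ := x
    obtain ⟨y, hy, rfl⟩ := (I.mem_Pf hσ hN hs.le).1 hx
    change Θ (I.Phi σ y) = 0 ↔ I.Phi σ y ∈ I.Pf (s + 1)
    rw [hΘ, Tau_eq_zero hτk hy]
    constructor
    · intro h
      exact I.Phi_mem_Pf h
    · intro h
      obtain ⟨y', hy', h'⟩ := (I.mem_Pf hσ hN (Nat.succ_le_of_lt hs)).1 h
      rw [← I.Phi_injective hσ h']
      exact hy'
  · exact hchart E.M₀k U.F.M₀k (reg0S k) U.chart₀.image (fun v u hu => I.th_mem₀ v hu)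
      (fun i g hg hgL => (I.flag.chart₀ i _).1 ⟨g, hg, hgL, rfl⟩) (fun u hu i => I.θ₀ u hu i)
  · exact hchart E.M₁k U.F.M₁k (regInfS k 0) U.chart₁.image (fun v u hu => I.th_mem₁ v hu)
      (fun i g hg hgL => (I.flag.chart₁ i _).1 ⟨g, hg, hgL, rfl⟩) (fun u hu i => I.θ₁ u hu i)

include I hN in
lemma loewy : Loewy E 0 N := by
  obtain ⟨σ, hσ, -⟩ := U.exists_section ⊤ ⊤ (fun w => ⟨fun _ => Submodule.mem_top, fun _ => by
    obtain ⟨m, _, hm⟩ := (U.chart.image w).2 (Set.mem_univ _)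
    exact ⟨m, Submodule.mem_top, hm⟩⟩)
  refine ⟨fun j => I.Pf (N - j), ?_, ?_, ?_⟩
  · exact I.Pf_eq_bot hN
  · change I.Pf (N - N) = ⊤
    rw [Nat.sub_self, eq_top_iff]
    intro x _
    obtain ⟨y, rfl⟩ := (I.Phi_bijective hσ).2 x
    exact I.Phi_mem_Pf (coefSub_top y)
  · intro j hj
    have h : N - j = N - (j + 1) + 1 := by omega
    change I.Pf (N - j) ≤ I.Pf (N - (j + 1)) ∧ IsLayer E 0 (I.Pf (N - j)) (I.Pf (N - (j + 1)))
    rw [h]
    exact ⟨I.Pf_succ_le _, I.isLayer_Pf hσ hN (by omega)⟩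

end Ind

end

/-- the zero layer -/
lemma isLayer_self (E : Sh X) (d : ℤ) (P : Submodule X.B E.M) : IsLayer E d P P := by
  refine ⟨0, 0, fun _ _ i => i.elim0, fun f => ⟨0, Subsingleton.elim _ _⟩,
    fun p => ⟨fun _ => p.2, fun _ => rfl⟩, fun f => ⟨fun _ i => i.elim0, fun _ =>
      ⟨0, zero_mem _, Subsingleton.elim _ _⟩⟩, fun f => ⟨fun _ i => i.elim0, fun _ =>
      ⟨0, zero_mem _, Subsingleton.elim _ _⟩⟩⟩

lemma loewy_of_bot_eq_top (E : Sh X) (d : ℤ) (h : (⊥ : Submodule X.B E.M) = ⊤) (N : ℕ) :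
    Loewy E d N :=
  ⟨fun _ => ⊥, rfl, h, fun _ _ => ⟨le_rfl, isLayer_self E d ⊥⟩⟩

/-- **P6.** If the noncommutative deformation algebra of `C` is finite-dimensional then the Loewy
lengths of the iterated extensions of `𝒪_C` are bounded. -/
theorem loewyBounded_of_finVersal (h : FinVersal X) : LoewyBounded X := by
  obtain ⟨Λ, _, _, η, U, hη, huniv⟩ := h
  obtain ⟨N, hN⟩ := hη.nilp
  refine ⟨N, ?_⟩
  rintro E ⟨l, hl⟩
  obtain ⟨n, G, h0, hn, hG⟩ := flag_of_loewy hl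
  cases n with
  | zero => exact loewy_of_bot_eq_top E 0 (by rw [← h0, ← hn]) N
  | succ n =>
    obtain ⟨p, F⟩ := exists_flagData h0 hn hG
    obtain ⟨f, hf⟩ := huniv (Tri k n) (triAug k n) (isArt_triAug n) F.ncDef
    obtain ⟨I⟩ := F.exists_ind hf
    exact I.loewy hN

end Pool.Agent.DWC
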