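import Pool.Agent.DWC.P6

/-! P6: if the noncommutative deformation algebra is finite-dimensional then the Loewy lengths of the
iterated extensions of `𝒪_C` are bounded. -/

set_option autoImplicit false

open LaurentPolynomial

universe u

namespace Pool.Agent.DWC

variable {k : Type u} [Field k] {X : Nbhd k}

section

variable {Γ : Type u} [Ring Γ] [Algebra k Γ] {ε : Γ →ₐ[k] k} (D : NCDef X ε)

/-- `π(γ m) = ε(γ) π(m)` -/
lemma NCDef.pi_act (γ : Γ) (m : D.F.M) : D.π (D.ρ γ m) = ε γ • D.π m := by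
  have h : D.π (D.ρ (γ - algebraMap k Γ (ε γ)) m) = 0 := by
    apply (D.chart.ker _ (AddSubgroup.mem_top _)).2
    apply AddSubgroup.subset_closure
    exact ⟨_, by simp, m, AddSubgroup.mem_top _, rfl⟩
  rw [map_sub, LinearMap.sub_apply, map_sub, sub_eq_zero, D.ρ_algebraMap, D.π_smul,
    AlgHom.commutes] at h
  rw [h, Algebra.smul_def]

lemma NCDef.pi_smulK (c : k) (m : D.F.M) : D.π (c • m) = c • D.π m := by
  rw [Sh.smulK, D.π_smul, AlgHom.commutes, Algebra.smul_def]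

/-- `π` as a `k`-linear map -/
noncomputable def NCDef.πk : D.F.M →ₗ[k] k[T;T⁻¹] where
  toFun := D.π
  map_add' := map_add D.π
  map_smul' := fun c m => D.pi_smulK c m

/-- a `k`-linear section of `π` which maps `W'` to `M'` -/
lemma NCDef.exists_section (M' : Submodule k D.F.M) (W' : Submodule k k[T;T⁻¹])
    (h : ∀ w, (∃ m ∈ M', D.π m = w) ↔ w ∈ W') :
    ∃ σ : k[T;T⁻¹] →ₗ[k] D.F.M, (∀ y, D.π (σ y) = y) ∧ ∀ y ∈ W', σ y ∈ M' := by
  let q : M' →ₗ[k] W' := (D.πk ∘ₗ M'.subtype).codRestrict W' (fun m => (h _).1 ⟨m, m.2, rfl⟩)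
  have hq : Function.Surjective q := by
    rintro ⟨w, hw⟩
    obtain ⟨m, hm, hmw⟩ := (h w).2 hw
    exact ⟨⟨m, hm⟩, Subtype.ext hmw⟩
  obtain ⟨σ₁, hσ₁⟩ := q.exists_rightInverse_of_surjective (LinearMap.range_eq_top.2 hq)
  have hsurj : Function.Surjective D.πk := by
    intro w
    obtain ⟨m, _, hm⟩ := (D.chart.image w).2 (Set.mem_univ _)
    exact ⟨m, hm⟩
  obtain ⟨σ₂, hσ₂⟩ := D.πk.exists_rightInverse_of_surjective (LinearMap.range_eq_top.2 hsurj)
  obtain ⟨pr, hpr⟩ := W'.subtype.exists_leftInverse_of_injective (Submodule.ker_subtype W')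
  have h1 : ∀ w : W', D.π (σ₁ w : D.F.M) = w := by
    intro w
    have := congrArg Subtype.val (LinearMap.congr_fun hσ₁ w)
    exact this
  have h2 : ∀ y, D.π (σ₂ y) = y := fun y => LinearMap.congr_fun hσ₂ y
  have h3 : ∀ w : W', pr (w : k[T;T⁻¹]) = w := fun w => LinearMap.congr_fun hpr w
  refine ⟨M'.subtype ∘ₗ σ₁ ∘ₗ pr + σ₂ ∘ₗ (LinearMap.id - W'.subtype ∘ₗ pr), ?_, ?_⟩
  · intro y
    change D.π ((σ₁ (pr y) : D.F.M) + σ₂ (y - (pr y : k[T;T⁻¹]))) = y
    rw [map_add, h1, h2]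
    abel
  · intro y hy
    change (σ₁ (pr y) : D.F.M) + σ₂ (y - (pr y : k[T;T⁻¹])) ∈ M'
    have h4 : pr y = ⟨y, hy⟩ := h3 ⟨y, hy⟩
    rw [h4, sub_self, map_zero, add_zero]
    exact (σ₁ ⟨y, hy⟩).2

end

/-- the data of a flag together with an equivariant map from a deformation `U` -/
structure Ind (E : Sh X) (n : ℕ) (G : ℕ → Submodule X.B E.M)
    (p : Fin (n + 1) → E.M →ₗ[k] k[T;T⁻¹]) {Λ : Type u} [Ring Λ] [Algebra k Λ] {η : Λ →ₐ[k] k}
    (U : NCDef X η) (f : Λ →ₐ[k] Tri k n) where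
  flag : FlagData E n G p
  θ : U.F.M →ₗ[X.B] (Fin (n + 1) → E.M)
  mem : ∀ u (i : Fin (n + 1)), θ u i ∈ G (i + 1)
  p_θ : ∀ u i, p i (θ u i) = U.π u
  θ₀ : ∀ u ∈ U.F.M₀, ∀ i, θ u i ∈ E.M₀
  θ₁ : ∀ u ∈ U.F.M₁, ∀ i, θ u i ∈ E.M₁
  θ_ρ : ∀ l u, θ (U.ρ l u) = triAct (f l) (θ u)

section

variable {E : Sh X} {n : ℕ} {G : ℕ → Submodule X.B E.M}
  {p : Fin (n + 1) → E.M →ₗ[k] k[T;T⁻¹]} {Λ : Type u} [Ring Λ] [Algebra k Λ] {η : Λ →ₐ[k] k}
  {U : NCDef X η} {f : Λ →ₐ[k] Tri k n}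

lemma FlagData.exists_ind (F : FlagData E n G p) (h : Induced f U F.ncDef) :
    Nonempty (Ind E n G p U f) := by
  obtain ⟨θ, h0, h1, hρ, hπ⟩ := h
  exact ⟨{ flag := F
           θ := F.sub.subtype ∘ₗ θ
           mem := fun u i => (θ u).2.1 i
           p_θ := fun u i => ((θ u).2.2 i).trans (hπ u)
           θ₀ := fun u hu i => h0 u hu i
           θ₁ := fun u hu i => h1 u hu i
           θ_ρ := fun l u => congrArg Subtype.val (hρ l u) }⟩

namespace Ind

variable (I : Ind E n G p U f)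

/-- `Σ v_j θ(u)_j` -/
noncomputable def th (v : Fin (n + 1) → k) : U.F.M →ₗ[X.B] E.M where
  toFun u := ∑ j, v j • I.θ u j
  map_add' := by
    intro x y
    rw [map_add, ← Finset.sum_add_distrib]
    exact Finset.sum_congr rfl fun j _ => by rw [Pi.add_apply, smul_add]
  map_smul' := by
    intro b x
    rw [map_smul, RingHom.id_apply, Finset.smul_sum]
    exact Finset.sum_congr rfl fun j _ => by rw [Pi.smul_apply, smul_comm]

lemma th_apply (v : Fin (n + 1) → k) (u : U.F.M) : I.th v u = ∑ j, v j • I.θ u j := rfl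

lemma th_ρ (v : Fin (n + 1) → k) (l : Λ) (u : U.F.M) :
    I.th v (U.ρ l u) = I.th (Matrix.vecMul v (f l).1) u := by
  rw [th_apply, th_apply, I.θ_ρ]
  simp only [triAct, Matrix.vecMul, dotProduct, Finset.smul_sum, Finset.sum_smul, smul_smul]
  rw [Finset.sum_comm]

lemma th_add (v w : Fin (n + 1) → k) (u : U.F.M) : I.th (v + w) u = I.th v u + I.th w u := by
  simp only [th_apply, Pi.add_apply, add_smul, Finset.sum_add_distrib]

lemma th_smul (c : k) (v : Fin (n + 1) → k) (u : U.F.M) : I.th (c • v) u = c • I.th v u := by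
  simp only [th_apply, Pi.smul_apply, smul_eq_mul, mul_smul, Finset.smul_sum]

lemma th_zero (u : U.F.M) : I.th 0 u = 0 := by
  simp [th_apply]

lemma th_mem₀ (v : Fin (n + 1) → k) {u : U.F.M} (hu : u ∈ U.F.M₀) : I.th v u ∈ E.M₀ := by
  rw [th_apply]
  exact sum_mem fun j _ => E.M₀k.smul_mem _ (I.θ₀ u hu j)

lemma th_mem₁ (v : Fin (n + 1) → k) {u : U.F.M} (hu : u ∈ U.F.M₁) : I.th v u ∈ E.M₁ := by
  rw [th_apply]
  exact sum_mem fun j _ => E.M₁k.smul_mem _ (I.θ₁ u hu j)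

/-- `Φ(y) = Σ θ(σ(y_j))_j` -/
noncomputable def Phi (σ : k[T;T⁻¹] →ₗ[k] U.F.M) : (Fin (n + 1) → k[T;T⁻¹]) →ₗ[k] E.M where
  toFun y := ∑ j, I.θ (σ (y j)) j
  map_add' := by
    intro x y
    rw [← Finset.sum_add_distrib]
    exact Finset.sum_congr rfl fun j _ => by rw [Pi.add_apply, map_add, map_add, Pi.add_apply]
  map_smul' := by
    intro c x
    rw [RingHom.id_apply, Finset.smul_sum]
    refine Finset.sum_congr rfl fun j _ => ?_
    rw [Pi.smul_apply, map_smul, Sh.smulK, map_smul, Pi.smul_apply]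
    rfl

lemma Phi_apply (σ : k[T;T⁻¹] →ₗ[k] U.F.M) (y : Fin (n + 1) → k[T;T⁻¹]) :
    I.Phi σ y = ∑ j, I.θ (σ (y j)) j := rfl

variable {σ : k[T;T⁻¹] →ₗ[k] U.F.M} (hσ : ∀ y, U.π (σ y) = y)

include I in
lemma mono' {i j : ℕ} (hij : i ≤ j) (hj : j ≤ n + 1) : G i ≤ G j := by
  induction j with
  | zero =>
    have : i = 0 := by omega
    rw [this]
  | succ j ih =>
    rcases Nat.lt_or_ge i (j + 1) with h | h
    · exact (ih (by omega) (by omega)).trans (I.flag.mono j (by omega))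
    · have : i = j + 1 := by omega
      rw [this]

include hσ

lemma Phi_injective : Function.Injective (I.Phi σ) := by
  rw [injective_iff_map_eq_zero]
  intro y hy
  have key : ∀ (d : ℕ) (i : Fin (n + 1)), (i : ℕ) + d = n → y i = 0 := by
    intro d
    induction d using Nat.strong_induction_on with
    | _ d ih =>
      intro i hi
      have h1 := congrArg (p i) hy
      rw [Phi_apply, map_sum, map_zero, Finset.sum_eq_single i] at h1
      · rwa [I.p_θ, hσ] at h1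
      · intro j _ hj
        rcases lt_or_gt_of_ne hj with h | h
        · have h2 : I.θ (σ (y j)) j ∈ G i :=
            I.mono' (Nat.succ_le_of_lt h) (by have := i.2; omega) (I.mem _ j)
          have h3 : I.θ (σ (y j)) j ∈ G (i + 1) :=
            I.mono' (Nat.le_succ _) (by have := i.2; omega) h2
          exact (I.flag.ker i _ h3).2 h2
        · have h4 : (i : ℕ) < j := h
          have h5 := j.2
          rw [ih (n - j) (by omega) j (by omega), map_zero, map_zero, Pi.zero_apply, map_zero]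
      · simp
  funext i
  have h5 := i.2
  exact key (n - i) i (by omega)

lemma Phi_surj_chart (L : Submodule k E.M) (W' : Submodule k k[T;T⁻¹])
    (hL : ∀ (i : Fin (n + 1)) (g : E.M), g ∈ G (i + 1) → g ∈ L → p i g ∈ W')
    (hσL : ∀ y ∈ W', ∀ i, I.θ (σ y) i ∈ L) (j : ℕ) (hj : j ≤ n + 1) :
    ∀ g ∈ G j, g ∈ L → ∃ y : Fin (n + 1) → k[T;T⁻¹], (∀ i, y i ∈ W') ∧ I.Phi σ y = g := by
  induction j with
  | zero =>
    intro g hg _
    rw [I.flag.h0, Submodule.mem_bot] at hg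
    exact ⟨0, fun _ => zero_mem _, by rw [map_zero, hg]⟩
  | succ j ih =>
    intro g hg hgL
    let i : Fin (n + 1) := ⟨j, by omega⟩
    have hw : p i g ∈ W' := hL i g hg hgL
    obtain ⟨y, hy, hyg⟩ := ih (by omega) (g - I.θ (σ (p i g)) i) (by
      apply (I.flag.ker i _ (sub_mem hg (I.mem _ i))).1
      rw [map_sub, I.p_θ, hσ, sub_self]) (sub_mem hgL (hσL _ hw i))
    refine ⟨y + Pi.single i (p i g), fun a => ?_, ?_⟩
    · by_cases ha : a = i
      · subst ha
        rw [Pi.add_apply, Pi.single_eq_same]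
        exact add_mem (hy _) hw
      · rw [Pi.add_apply, Pi.single_eq_of_ne ha, add_zero]
        exact hy a
    · rw [map_add, hyg, Phi_apply, Finset.sum_eq_single i]
      · rw [Pi.single_eq_same, sub_add_cancel]
      · intro a _ ha
        rw [Pi.single_eq_of_ne ha, map_zero, map_zero, Pi.zero_apply]
      · simp

lemma Phi_bijective : Function.Bijective (I.Phi σ) := by
  refine ⟨I.Phi_injective hσ, fun g => ?_⟩
  obtain ⟨y, _, hy⟩ := I.Phi_surj_chart hσ ⊤ ⊤ (fun _ _ _ _ => Submodule.mem_top)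
    (fun _ _ _ => Submodule.mem_top) (n + 1) le_rfl g (by
      rw [I.flag.hn]; exact Submodule.mem_top) Submodule.mem_top
  exact ⟨y, hy⟩

/-- chart: `Φ(y) ∈ L` iff all `y i ∈ W'` -/
lemma mem_of_Phi_mem (L : Submodule k E.M) (W' : Submodule k k[T;T⁻¹])
    (hL : ∀ (i : Fin (n + 1)) (g : E.M), g ∈ G (i + 1) → g ∈ L → p i g ∈ W')
    (hσL : ∀ y ∈ W', ∀ i, I.θ (σ y) i ∈ L) {y : Fin (n + 1) → k[T;T⁻¹]}
    (h : I.Phi σ y ∈ L) (i : Fin (n + 1)) : y i ∈ W' := by
  obtain ⟨y', hy', h'⟩ := I.Phi_surj_chart hσ L W' hL hσL (n + 1) le_rfl _ (by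
      rw [I.flag.hn]; exact Submodule.mem_top) h
  rw [← I.Phi_injective hσ h']
  exact hy' i

end Ind

end

end Pool.Agent.DWC
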