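import Pool.Agent.DWX.P6Layers

/-! P6: twisting by `𝒪(1)`, and the bound of the Loewy lengths of iterated extensions of
`𝒪_C(-1)`. -/

set_option autoImplicit false

open LaurentPolynomial

universe u

namespace Pool.Agent.DWC

variable {k : Type u} [Field k] {X : Nbhd k}

/-- The twist `E(1)`: the sections over `U₁` are multiplied by `x`. -/
@[reducible] def Sh.twist (E : Sh X) : Sh X where
  M := E.M
  M₀ := E.M₀
  M₁ :=
    { carrier := {m | ((X.x⁻¹ : X.Bˣ) : X.B) • m ∈ E.M₁}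
      zero_mem' := by
        change _ • (0 : E.M) ∈ E.M₁
        rw [smul_zero]; exact zero_mem _
      add_mem' := by
        intro a b ha hb
        change _ • (a + b) ∈ E.M₁
        rw [smul_add]; exact add_mem ha hb
      neg_mem' := by
        intro a ha
        change _ • (-a) ∈ E.M₁
        rw [smul_neg]; exact neg_mem ha }
  smul₀ := E.smul₀
  smul₁ := by
    intro b hb m hm
    change _ • (b • m) ∈ E.M₁
    rw [smul_comm]
    exact E.smul₁ b hb _ hm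
  loc₀ := E.loc₀
  loc₁ := by
    intro m
    obtain ⟨n, hn⟩ := E.loc₁ (((X.x⁻¹ : X.Bˣ) : X.B) • m)
    refine ⟨n, ?_⟩
    change _ • (_ • m) ∈ E.M₁
    rwa [smul_comm]

lemma Sh.mem_twist₁ (E : Sh X) (m : E.M) :
    m ∈ E.twist.M₁ ↔ ((X.x⁻¹ : X.Bˣ) : X.B) • m ∈ E.M₁ := Iff.rfl

lemma Nbhd.res_x_inv (X : Nbhd k) : X.res ((X.x⁻¹ : X.Bˣ) : X.B) = T (-1) := by
  have h : X.res (X.x : X.B) * X.res ((X.x⁻¹ : X.Bˣ) : X.B) = 1 := by
    rw [← map_mul, Units.mul_inv, map_one]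
  rw [X.res_x] at h
  calc X.res ((X.x⁻¹ : X.Bˣ) : X.B) = T (-1) * T 1 * X.res ((X.x⁻¹ : X.Bˣ) : X.B) := by
        rw [← T_add]; simp
    _ = T (-1) := by rw [mul_assoc, h, mul_one]

lemma T_neg_one_mul_mem (f : k[T;T⁻¹]) (d : ℤ) :
    T (-1) * f ∈ RegInf k d ↔ f ∈ RegInf k (d + 1) := by
  have h : ∀ b : ℤ, (T (-1) * f : k[T;T⁻¹]).coeff b = f.coeff (b + 1) := by
    intro b
    conv_lhs => rw [show b = -1 + (b + 1) by ring]
    exact (AddMonoidAlgebra.coeff_single_mul_add f (1 : k) (-1) (b + 1)).trans (one_mul _)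
  constructor
  · intro hf i hi
    have := hf (i - 1) (by omega)
    rw [h] at this
    simpa using this
  · intro hf i hi
    rw [h]
    exact hf (i + 1) (by omega)

lemma isLayer_twist (E : Sh X) (d : ℤ) (P₁ P₂ : Submodule X.B E.M) :
    IsLayer E.twist (d + 1) P₁ P₂ ↔ IsLayer E d P₁ P₂ := by
  have key : ∀ (r : ℕ) (θ : P₂ →+ (Fin r → k[T;T⁻¹])),
      (∀ (b : X.B) (p : P₂) (i : Fin r), θ (b • p) i = X.res b * θ p i) →
      ((∀ f : Fin r → k[T;T⁻¹], (∃ p : P₂, (p : E.M) ∈ E.twist.M₁ ∧ θ p = f) ↔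
        ∀ i, f i ∈ RegInf k (d + 1)) ↔
      (∀ f : Fin r → k[T;T⁻¹], (∃ p : P₂, (p : E.M) ∈ E.M₁ ∧ θ p = f) ↔
        ∀ i, f i ∈ RegInf k d)) := by
    intro r θ hθ
    have h1 : ∀ (p : P₂) (f : Fin r → k[T;T⁻¹]), θ p = f →
        θ (((X.x⁻¹ : X.Bˣ) : X.B) • p) = fun i => T (-1) * f i := by
      rintro p f rfl
      funext i
      rw [hθ, X.res_x_inv]
    have h2 : ∀ (p : P₂) (f : Fin r → k[T;T⁻¹]), θ p = (fun i => T (-1) * f i) →
        θ ((X.x : X.B) • p) = f := by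
      intro p f hp
      funext i
      rw [hθ, X.res_x, hp, ← mul_assoc, ← T_add]
      simp
    have h3 : ∀ f : Fin r → k[T;T⁻¹], (∃ p : P₂, (p : E.M) ∈ E.twist.M₁ ∧ θ p = f) ↔
        ∃ p : P₂, (p : E.M) ∈ E.M₁ ∧ θ p = fun i => T (-1) * f i := by
      intro f
      constructor
      · rintro ⟨p, hp, h⟩
        exact ⟨((X.x⁻¹ : X.Bˣ) : X.B) • p, hp, h1 p f h⟩
      · rintro ⟨p, hp, h⟩
        refine ⟨(X.x : X.B) • p, ?_, h2 p f h⟩
        change ((X.x⁻¹ : X.Bˣ) : X.B) • ((X.x : X.B) • (p : E.M)) ∈ E.M₁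
        rw [smul_smul, Units.inv_mul, one_smul]
        exact hp
    constructor
    · intro h f
      have h4 := h (fun i => T 1 * f i)
      have h5 : (fun i => T (-1) * (T 1 * f i)) = f := by
        funext i
        rw [← mul_assoc, ← T_add]
        simp
      rw [h3, h5] at h4
      rw [h4]
      refine forall_congr' fun i => ?_
      rw [← T_neg_one_mul_mem, ← mul_assoc, ← T_add]
      simp
    · intro h f
      rw [h3, h]
      exact forall_congr' fun i => T_neg_one_mul_mem _ _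
  constructor
  · rintro ⟨r, θ, h1, h2, h3, h4, h5⟩
    exact ⟨r, θ, h1, h2, h3, h4, (key r θ h1).1 h5⟩
  · rintro ⟨r, θ, h1, h2, h3, h4, h5⟩
    exact ⟨r, θ, h1, h2, h3, h4, (key r θ h1).2 h5⟩

lemma loewy_twist (E : Sh X) (d : ℤ) (N : ℕ) : Loewy E.twist (d + 1) N ↔ Loewy E d N := by
  constructor
  · rintro ⟨P, h0, hN, h⟩
    exact ⟨P, h0, hN, fun j hj => ⟨(h j hj).1, (isLayer_twist E d _ _).1 (h j hj).2⟩⟩
  · rintro ⟨P, h0, hN, h⟩
    exact ⟨P, h0, hN, fun j hj => ⟨(h j hj).1, (isLayer_twist E d _ _).2 (h j hj).2⟩⟩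

/-- bounded Loewy lengths for `𝒪_C(-1)` -/
theorem loewyBounded_neg_one (h : LoewyBounded X) :
    ∃ N : ℕ, ∀ E : Sh X, (∃ n : ℕ, Loewy E (-1) n) → Loewy E (-1) N := by
  obtain ⟨N, hN⟩ := h
  refine ⟨N, fun E hE => ?_⟩
  obtain ⟨n, hn⟩ := hE
  apply (loewy_twist E (-1) N).1
  exact hN E.twist ⟨n, (loewy_twist E (-1) n).2 hn⟩

/-- bounded Loewy lengths for `𝒪_C(-1)` -/
theorem loewyBounded_neg_one_of_finVersal (h : FinVersal X) :
    ∃ N : ℕ, ∀ E : Sh X, (∃ n : ℕ, Loewy E (-1) n) → Loewy E (-1) N :=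
  loewyBounded_neg_one (loewyBounded_of_finVersal h)

end Pool.Agent.DWC
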