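import Pool.Agent.DWC.NCDef

/-!
# Contraction of a rational curve and its noncommutative deformations: the statement

Let `C ≅ ℙ¹` be a curve in a smooth variety over `k`, and let `X` be the formal neighbourhood
of `C`, the completion of the variety along `C`.  Let `U₀` and `U₁` be the open formal subschemes
of `X` whose underlying spaces are `C ∖ {∞}` and `C ∖ {0}`.  They are affine; `B₀`, `B₁` and `B` are
the rings of functions on `U₀`, on `U₁` and on `U₀ ∩ U₁`.  The restrictions `B₀ → B` and `B₁ → B`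
are injective, because the variety is smooth.  The functions `x ∈ B₀` and `w ∈ B₁` are lifts of the
coordinates `T` and `T⁻¹` of `C`; they are units of `B`, because `B` is complete.

The first part is about subrings `S` and `A` of a ring `B` with an ideal `I`.
-/

set_option autoImplicit false

open LaurentPolynomial

universe u

namespace Pool.Agent.DWC

section Rings

variable {k B : Type u} [Field k] [CommRing B] [Algebra k B]

/-- The ideal `I ∩ S` of `S`. -/
noncomputable def idealIn (I : Ideal B) (S : Subalgebra k B) : Ideal S := I.comap (algebraMap S B)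

/-- `(I ∩ S) ^ n`, as a subset of `B`. -/
def powIn (I : Ideal B) (S : Subalgebra k B) (n : ℕ) : Set B :=
  {b | ∃ c : S, c ∈ idealIn I S ^ n ∧ (c : B) = b}

/-- The `S`-submodule of `B` generated by `s`. -/
def spanIn (S : Subalgebra k B) (s : Set B) : Set B := Submodule.span S s

/-- `S` is noetherian, and complete for the topology defined by `I ∩ S`; and modulo every power of
`I`, the ring `B` is `S[1/y]`. -/
structure IsFormalChart (I : Ideal B) (S : Subalgebra k B) (y : B) : Prop where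
  noeth : IsNoetherianRing S
  complete : IsAdicComplete (idealIn I S) S
  loc : ∀ (N : ℕ) (b : B), ∃ ν : ℕ, ∃ c ∈ I ^ N, y ^ ν * b + c ∈ S
  exact : ∀ (N : ℕ), ∀ b ∈ S, b ∈ I ^ N → ∃ ν : ℕ, y ^ ν * b ∈ powIn I S N

/-- `R` is a noetherian local ring, complete for its ideal `I ∩ R`. -/
structure IsCompleteLocal (I : Ideal B) (R : Subalgebra k B) : Prop where
  isLocal : IsLocalRing R
  noetherian : IsNoetherianRing R
  complete : IsAdicComplete (idealIn I R) R

/-- `A` is a finite `R[y]`-module. -/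
def FiniteOver (R A : Subalgebra k B) (y : B) : Prop :=
  ∃ s : Finset B, (s : Set B) ⊆ A ∧
    (A : Set B) ⊆ spanIn (Algebra.adjoin k ((R : Set B) ∪ {y})) s

/-- `A ⊆ S`, and `A / 𝔪 ^ n A = S / 𝔪 ^ n S` for all `n`, where `𝔪 = I ∩ R`. -/
def IsCompletion (I : Ideal B) (R A S : Subalgebra k B) : Prop :=
  A ≤ S ∧ ∀ n : ℕ, (∀ b ∈ S, ∃ a ∈ A, b - a ∈ spanIn S (powIn I R n)) ∧
    ∀ a ∈ A, a ∈ spanIn S (powIn I R n) → a ∈ spanIn A (powIn I R n)

/-- `t ∈ R`, and `A[1/t] = R[1/t]`. -/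
def IsoAt (R A : Subalgebra k B) (t : B) : Prop := t ∈ R ∧ ∀ a ∈ A, ∃ n : ℕ, t ^ n * a ∈ R

/-- A projective morphism of schemes `f : Y → Spec R` with `R f_* 𝒪_Y = 𝒪`.  The scheme `Y` is the
union of `Y₀ = Spec A₀` and `Y₁ = Spec A₁`, glued along the open subsets `x ≠ 0` of `Y₀` and
`1 / x ≠ 0` of `Y₁`. -/
structure IsProjective (R A₀ A₁ : Subalgebra k B) (x : Bˣ) : Prop where
  x_mem : (x : B) ∈ A₀
  inv_mem : ((x⁻¹ : Bˣ) : B) ∈ A₁
  /-- `A₀[1/x] = A₁[x]` in `B` -/
  glue₀ : ∀ a ∈ A₀, ∃ n : ℕ, ((x⁻¹ : Bˣ) : B) ^ n * a ∈ A₁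
  glue₁ : ∀ a ∈ A₁, ∃ n : ℕ, (x : B) ^ n * a ∈ A₀
  /-- `Y` is finite over `ℙ¹_R`, with coordinate `x`; so `f` is projective -/
  finite₀ : FiniteOver R A₀ (x : B)
  finite₁ : FiniteOver R A₁ ((x⁻¹ : Bˣ) : B)
  /-- `H⁰(Y, 𝒪) = R` -/
  h0 : A₀ ⊓ A₁ = R
  /-- `H¹(Y, 𝒪) = 0` (the sections over `Y₀ ∩ Y₁` are the `a / x ^ n` with `a ∈ A₀`) -/
  h1 : ∀ a ∈ A₀, ∀ n : ℕ, ∃ a₀ ∈ A₀, ∃ a₁ ∈ A₁, ((x⁻¹ : Bˣ) : B) ^ n * a = a₀ + a₁

/-- `f : Y → Spec R` is an isomorphism over the complement of the closed point: there are finitely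
many `t ∈ R` with `x t ∈ R` such that the open sets `D(t)` and `D(x t)` cover the complement of
the closed point of `Spec R`, `A₀[1/t] = R[1/t]`, and `A₁[1/(x t)] = R[1/(x t)]`.  (As `x = x t / t`
is a function on `f⁻¹ D(t)`, this set is contained in `Y₀`, and it is `Spec A₀[1/t] = D(t)`;
similarly `f⁻¹ D(x t) = D(x t)`.) -/
def IsIsoOutside (I : Ideal B) (R A₀ A₁ : Subalgebra k B) (x : B) : Prop :=
  ∃ (s : Finset B) (N : ℕ), (∀ t ∈ s, IsoAt R A₀ t ∧ IsoAt R A₁ (x * t)) ∧
    powIn I R N ⊆ spanIn R {b | b ∈ s ∨ ∃ t ∈ s, b = x * t}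

/-- `f : Y → Spec R` is birational: there is `t ≠ 0` in `R` with `A₀[1/t] = R[1/t] = A₁[1/t]`. -/
def IsBirational (R A₀ A₁ : Subalgebra k B) : Prop :=
  ∃ t : B, t ≠ 0 ∧ IsoAt R A₀ t ∧ IsoAt R A₁ t

end Rings

section Modules

variable {k B L : Type u} [Field k] [CommRing B] [Algebra k B] [CommRing L] [Algebra k L]
  {M N : Type u} [AddCommGroup M] [Module B M] [AddCommGroup N] [Module B N]
  {Γ Λ : Type u} [Ring Γ] [Algebra k Γ] [Ring Λ] [Algebra k Λ]

/-- The action of `Γ` on `M` given by `ρ`. -/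
def act (ρ : Γ →+* Module.End B M) (γ : Γ) (m : M) : M := ρ γ m

/-- The action `ρ` of `Γ` on `M` is compatible with the action of `k`. -/
def ActsOver (k : Type u) [Field k] [Algebra k B] [Algebra k Γ] (ρ : Γ →+* Module.End B M) : Prop :=
  ∀ (c : k) (m : M), act ρ (algebraMap k Γ c) m = algebraMap k B c • m

/-- `π : M → L` is linear over `res : B → L`. -/
def LinearOver (res : B →ₐ[k] L) (π : M →+ L) : Prop := ∀ (b : B) (m : M), π (b • m) = res b * π m

/-- `θ` maps `M'` to `N'`. -/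
def MapsInto (θ : M →ₗ[B] N) (M' : AddSubgroup M) (N' : AddSubgroup N) : Prop :=
  ∀ m ∈ M', θ m ∈ N'

/-- `θ (λ m) = f(λ) θ(m)` for `λ ∈ Λ` -/
def MapsOver (f : Λ →ₐ[k] Γ) (ρ : Λ →+* Module.End B M) (σ : Γ →+* Module.End B N)
    (θ : M →ₗ[B] N) : Prop := ∀ (l : Λ) (m : M), θ (act ρ l m) = act σ (f l) (θ m)

/-- `θ` is compatible with `π : M → L` and `π' : N → L`. -/
def Commutes (θ : M →ₗ[B] N) (π : M →+ L) (π' : N →+ L) : Prop := ∀ m : M, π' (θ m) = π m

end Modules

variable {k : Type u} [Field k]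

/-- The ideal of `C` on `U₀ ∩ U₁`. -/
noncomputable def Nbhd.idealC (X : Nbhd k) : Ideal X.B := RingHom.ker X.res.toRingHom

/-- The ring `R = H⁰(X, 𝒪)` of global functions. -/
def Nbhd.glob (X : Nbhd k) : Subalgebra k X.B := X.B₀ ⊓ X.B₁

/-- `X` is the formal neighbourhood of `C`: the rings of functions on `U₀`, `U₁` and `U₀ ∩ U₁` are
noetherian and complete for the topology defined by the ideal of `C`, and modulo every power of
this ideal `U₀ ∩ U₁` is the open subset `x ≠ 0` of `U₀` and the open subset `w ≠ 0` of `U₁`. -/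
structure Nbhd.IsFormal (X : Nbhd k) : Prop where
  chart₀ : IsFormalChart X.idealC X.B₀ (X.x : X.B)
  chart₁ : IsFormalChart X.idealC X.B₁ (X.w : X.B)
  noeth : IsNoetherianRing X.B
  complete : IsAdicComplete X.idealC X.B

/-- `f : Y → Spec R`, with `R = H⁰(X, 𝒪)`, is the contraction of `C` to a point: `X` is the formal
completion of `Y` along the closed fibre of `f`, which is `C` as a set, and `f` is a projective
morphism, an isomorphism outside the closed fibre, with `R f_* 𝒪_Y = 𝒪`. -/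
structure Nbhd.IsContraction (X : Nbhd k) (A₀ A₁ : Subalgebra k X.B) (x : X.Bˣ) : Prop where
  projective : IsProjective X.glob A₀ A₁ x
  iso : IsIsoOutside X.idealC X.glob A₀ A₁ (x : X.B)
  /-- if `X` is integral, and `C` is not the whole of `X` -/
  birational : IsDomain X.B → X.idealC ≠ ⊥ → IsBirational X.glob A₀ A₁
  /-- `x` restricts to the coordinate `T` of `C` -/
  res_x : X.res x = T 1
  completion₀ : IsCompletion X.idealC X.glob A₀ X.B₀
  completion₁ : IsCompletion X.idealC X.glob A₁ X.B₁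
  /-- the ideal `𝔪 𝒪_X`, contained in the ideal of `C`, contains a power of this ideal -/
  fibre : ∃ N : ℕ, powIn X.idealC X.B₀ N ⊆ spanIn X.B₀ (powIn X.idealC X.glob 1) ∧
    powIn X.idealC X.B₁ N ⊆ spanIn X.B₁ (powIn X.idealC X.glob 1)

/-- `C` contracts to a point: the ring `R = H⁰(X, 𝒪)` is a complete noetherian local ring with
residue field `k`, and there is a contraction `f : Y → Spec R` of `C` to a point. -/
structure Nbhd.ContractsToPoint (X : Nbhd k) : Prop where
  /-- `R` is complete for the ideal `𝔪` of the functions vanishing on `C`, its maximal ideal -/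
  complete : IsCompleteLocal X.idealC X.glob
  /-- global functions are constant on `C`: the residue field of `R` is `k` -/
  residue : ∀ r ∈ X.glob, ∃ a : k, X.res r = C a
  contraction : ∃ (A₀ A₁ : Subalgebra k X.B) (x : X.Bˣ), X.IsContraction A₀ A₁ x

/-- A noncommutative deformation of `𝒪_C` over `(Γ, ε)`: a sheaf `F` on `X` on which `Γ` acts by
`ρ`, flat over `Γ` (over `U₀ ∩ U₁`, over `U₀` and over `U₁`), with an isomorphism `F / 𝔪 F ≅ 𝒪_C`
induced by `π`. -/
structure NCDeformation (X : Nbhd k) {Γ : Type u} [Ring Γ] [Algebra k Γ] (ε : Γ →ₐ[k] k) where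
  F : Sh X
  ρ : Γ →+* Module.End X.B F.M
  actsOver : ActsOver k ρ
  π : F.M →+ k[T;T⁻¹]
  linear : LinearOver X.res π
  chart : IsFlatChart ε (act ρ) π ⊤ Set.univ
  chart₀ : IsFlatChart ε (act ρ) π F.M₀ (Reg0 k)
  chart₁ : IsFlatChart ε (act ρ) π F.M₁ (RegInf k 0)

/-- The deformation `D` over `Γ` is induced from the deformation `U` over `Λ` along the algebra map
`f : Λ → Γ`: there is a map of sheaves `θ : U → D` over `𝒪_C` with `θ(λ m) = f(λ) θ(m)`,
equivalently an isomorphism `Γ ⊗_Λ U → D` of deformations. -/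
def IsInduced {X : Nbhd k} {Λ Γ : Type u} [Ring Λ] [Algebra k Λ] [Ring Γ] [Algebra k Γ]
    {ε : Λ →ₐ[k] k} {ε' : Γ →ₐ[k] k} (f : Λ →ₐ[k] Γ) (U : NCDeformation X ε)
    (D : NCDeformation X ε') : Prop :=
  ∃ θ : U.F.M →ₗ[X.B] D.F.M, MapsInto θ U.F.M₀ D.F.M₀ ∧ MapsInto θ U.F.M₁ D.F.M₁ ∧
    MapsOver f U.ρ D.ρ θ ∧ Commutes θ U.π D.π

/-- The noncommutative deformation algebra of `C` is finite-dimensional: there are an object
`(Λ, ε)` of `art_1` and a deformation `U` of `𝒪_C` over it from which every deformation over every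
object of `art_1` is induced.  (The algebra map `f : Λ → Γ` is not required to be unique: `f` and
its conjugates `g f g⁻¹`, `g ∈ 1 + 𝔪`, always induce isomorphic deformations.) -/
def Nbhd.FinDimDef (X : Nbhd k) : Prop :=
  ∃ (Λ : Type u) (_ : Ring Λ) (_ : Algebra k Λ) (ε : Λ →ₐ[k] k) (U : NCDeformation X ε),
    IsArt ε ∧ ∀ (Γ : Type u) [Ring Γ] [Algebra k Γ] (ε' : Γ →ₐ[k] k), IsArt ε' →
      ∀ D : NCDeformation X ε', ∃ f : Λ →ₐ[k] Γ, IsInduced f U D

end Pool.Agent.DWC
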