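import Pool.Agent.DWX.Statement
import Pool.Agent.DWX.Contract
import Pool.Agent.H37A.Statement

/-!
# The two forms of the statement
-/

set_option autoImplicit false

open LaurentPolynomial

universe u

namespace Pool.Agent.DWC

variable {k : Type u} [Field k] {X : Nbhd k}

theorem Nbhd.isFormal_iff : X.IsFormal ↔ X.Formal :=
  ⟨fun h => ⟨h.chart₀.noeth, h.chart₁.noeth, h.noeth, h.chart₀.complete, h.chart₁.complete,
    h.complete, h.chart₀.loc, h.chart₁.loc, h.chart₀.exact, h.chart₁.exact⟩,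
  fun h => ⟨⟨h.noeth₀, h.complete₀, h.loc₀, h.exact₀⟩, ⟨h.noeth₁, h.complete₁, h.loc₁, h.exact₁⟩,
    h.noeth, h.complete⟩⟩

/-- `m ^ N ≤ (s)` as ideals of `R` and as subsets of `B` -/
theorem mPow_le_iff {N : ℕ} {s : Finset X.B} {x : X.B}
    (hs : ∀ t ∈ s, t ∈ X.R ∧ x * t ∈ X.R) :
    X.mPow N ≤ X.idealOf s x ↔
      powIn X.idealC X.glob N ⊆ spanIn X.glob {b | b ∈ s ∨ ∃ t ∈ s, b = x * t} := by
  have key : ∀ r : X.R, r ∈ X.idealOf s x ↔
      (r : X.B) ∈ Submodule.span X.R {b | b ∈ s ∨ ∃ t ∈ s, b = x * t} := by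
    intro r
    constructor
    · intro hr
      have hr' : r ∈ Submodule.span X.R {r : X.R | (r : X.B) ∈ s ∨ ∃ t ∈ s, (r : X.B) = x * t} := hr
      clear hr
      induction hr' using Submodule.span_induction with
      | mem r h => exact Submodule.subset_span h
      | zero => exact Submodule.zero_mem _
      | add a b _ _ ha hb => exact Submodule.add_mem _ ha hb
      | smul a b _ hb => exact Submodule.smul_mem _ a hb
    · intro hr
      have h2 : ∀ b ∈ Submodule.span X.R {b | b ∈ s ∨ ∃ t ∈ s, b = x * t},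
          ∃ r : X.R, r ∈ X.idealOf s x ∧ (r : X.B) = b := by
        intro b hb
        induction hb using Submodule.span_induction with
        | mem b hb =>
          have hbR : b ∈ X.R := by
            rcases hb with h | ⟨t, ht, h⟩
            · exact (hs b h).1
            · rw [h]; exact (hs t ht).2
          exact ⟨⟨b, hbR⟩, Ideal.subset_span hb, rfl⟩
        | zero => exact ⟨0, Ideal.zero_mem _, rfl⟩
        | add a b _ _ ha hb =>
          obtain ⟨r, hr, rfl⟩ := ha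
          obtain ⟨r', hr', rfl⟩ := hb
          exact ⟨r + r', Ideal.add_mem _ hr hr', rfl⟩
        | smul a b _ hb =>
          obtain ⟨r, hr, rfl⟩ := hb
          exact ⟨a * r, Ideal.mul_mem_left _ a hr, rfl⟩
      obtain ⟨r', hr', h3⟩ := h2 _ hr
      have h4 : r' = r := Subtype.ext h3
      rwa [h4] at hr'
  constructor
  · rintro h _ ⟨c, hc, rfl⟩
    exact (key c).1 (h hc)
  · intro h r hr
    exact (key r).2 (h ⟨r, hr, rfl⟩)

theorem isIsoOutside_iff {A₀ A₁ : Subalgebra k X.B} {x : X.Bˣ} :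
    IsIsoOutside X.idealC X.glob A₀ A₁ (x : X.B) ↔ IsoOutside X A₀ A₁ x := by
  constructor
  · rintro ⟨s, N, hs, h⟩
    exact ⟨s, N, hs, (mPow_le_iff fun t ht => ⟨(hs t ht).1.1, (hs t ht).2.1⟩).2 h⟩
  · rintro ⟨s, N, hs, h⟩
    exact ⟨s, N, hs, (mPow_le_iff fun t ht => ⟨(hs t ht).1.1, (hs t ht).2.1⟩).1 h⟩

theorem Nbhd.contractsToPoint_iff : X.ContractsToPoint ↔ ContractsTo X := by
  constructor
  · intro h
    obtain ⟨A₀, A₁, x, hc⟩ := h.contraction
    exact ⟨h.complete.isLocal, h.complete.noetherian, h.complete.complete, h.residue, hc.fibre,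
      A₀, A₁, x, ⟨⟨hc.projective.x_mem, hc.projective.inv_mem, hc.projective.glue₀,
        hc.projective.glue₁⟩, hc.res_x, hc.projective.finite₀, hc.projective.finite₁,
        hc.projective.h0, hc.projective.h1, hc.completion₀, hc.completion₁⟩,
      isIsoOutside_iff.1 hc.iso, hc.birational⟩
  · intro h
    obtain ⟨A₀, A₁, x, hc, hi, hb⟩ := h.exists_f
    exact ⟨⟨h.isLocal, h.noetherian, h.complete⟩, h.residue, A₀, A₁, x,
      ⟨⟨hc.glue.x_mem, hc.glue.inv_mem, hc.glue.glue₀, hc.glue.glue₁, hc.finite₀, hc.finite₁,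
        hc.h0, hc.h1⟩, isIsoOutside_iff.2 hi, hb, hc.res_x,
        hc.completion₀, hc.completion₁, h.fibre⟩⟩

section NC

variable {Γ Λ : Type u} [Ring Γ] [Algebra k Γ] [Ring Λ] [Algebra k Λ]
  {ε : Γ →ₐ[k] k} {ε' : Λ →ₐ[k] k}

/-- The same deformation, in the other form. -/
def NCDeformation.toNCDef (D : NCDeformation X ε) : NCDef X ε :=
  ⟨D.F, D.ρ, D.actsOver, D.π, D.linear, D.chart, D.chart₀, D.chart₁⟩

/-- The same deformation, in the other form. -/
def NCDef.toNCDeformation (D : NCDef X ε) : NCDeformation X ε :=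
  ⟨D.F, D.ρ, D.ρ_algebraMap, D.π, D.π_smul, D.chart, D.chart₀, D.chart₁⟩

end NC

theorem Nbhd.finDimDef_iff : X.FinDimDef ↔ FinVersal X := by
  constructor
  · rintro ⟨Λ, _, _, ε, U, hε, h⟩
    refine ⟨Λ, _, _, ε, U.toNCDef, hε, fun Γ _ _ ε' hε' D => ?_⟩
    obtain ⟨f, θ, h0, h1, h2, h3⟩ := h Γ ε' hε' D.toNCDeformation
    exact ⟨f, θ, h0, h1, h2, h3⟩
  · rintro ⟨Λ, _, _, ε, U, hε, h⟩
    refine ⟨Λ, _, _, ε, U.toNCDeformation, hε, fun Γ _ _ ε' hε' D => ?_⟩
    obtain ⟨f, θ, h0, h1, h2, h3⟩ := h Γ ε' hε' D.toNCDef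
    exact ⟨f, θ, h0, h1, h2, h3⟩

end Pool.Agent.DWC
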